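import Pool.Agent.NH2.BU.Braided

/-!
# Unitary F-matrices force a braided fusion category to be unitary
-/

open CategoryTheory CategoryTheory.Limits MonoidalCategory Pool.Agent.TH22.UF

universe v u

/-- A braided fusion category over `ℂ` has a gauge in which all the F-matrices are unitary (with no
condition at all on the braiding matrices) if and only if it is unitary as a braided fusion
category, that is, linearly, monoidally and braided equivalent to a C*-tensor category with unitary
braiding. So there is no non-unitary braided fusion category having a gauge with unitary F-matrices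
and diagonal braiding matrices. -/
theorem Pool.Agent.Results.MP_7857a6_al.UnitaryBraiding.result
    (C : Type u) [Category.{v} C] [Abelian C] [Linear ℂ C] [HasFiniteBiproducts C]
    [MonoidalCategory C] [MonoidalPreadditive C] [MonoidalLinear ℂ C] [RigidCategory C]
    [BraidedCategory C] (hC : IsFusionCategory C) (r : ℕ) (S : Fin r → C)
    (hS : IsSimpleList S) :
    (∃ g : Gauge S, g.UnitaryF) ↔ IsBraidedUnitary C := by
  constructor
  · rintro ⟨g, hg⟩
    exact Pool.Agent.NH2.BU.isBraidedUnitary_of_unitaryF hC hS g hg
  · rintro ⟨D, h1, h2, h3, h4, h5, s, F, hF, hA, hL, hE, -⟩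
    exact exists_gauge_of_isUnitary hC hS ⟨D, h1, h2, h3, h4, s, F, hF.toMonoidal, hA, hL, hE⟩
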